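import Pool.Agent.Q293.HF.Stm

/-! # HF: lifting of singular simplices -/

set_option autoImplicit false

open Topology Filter

namespace Pool.Agent.Q129.HF.LIFT

open Pool.Agent.Q293.HF Pool.Agent.Helper922.HB

theorem vmem (n : ℕ) : Pi.single (0 : Fin (n + 1)) (1 : ℝ) ∈ stdSimplex ℝ (Fin (n + 1)) :=
  single_mem_stdSimplex ℝ 0

theorem zpow_inv {E X : Type} [TopologicalSpace E] [TopologicalSpace X] (p : C(E, X)) (g : E ≃ₜ E)
    (h : ∀ e, p (g e) = p e) (k : ℤ) (e : E) : p ((g ^ k) e) = p e := by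
  have hn : ∀ (m : ℕ) (e : E), p ((g ^ m) e) = p e := by
    intro m
    induction m with
    | zero => intro e; rw [pow_zero]; rfl
    | succ m ih =>
      intro e
      rw [pow_succ]
      show p ((g ^ m) (g e)) = p e
      rw [ih, h]
  have hi : ∀ (m : ℕ) (e : E), p (((g ^ m)⁻¹ : E ≃ₜ E) e) = p e := by
    intro m e
    have h2 := hn m (((g ^ m)⁻¹ : E ≃ₜ E) e)
    have h3 : (g ^ m) (((g ^ m)⁻¹ : E ≃ₜ E) e) = e := (g ^ m).apply_symm_apply e
    rw [h3] at h2
    exact h2.symm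
  cases k with
  | ofNat m => rw [Int.ofNat_eq_natCast, zpow_natCast]; exact hn m e
  | negSucc m => rw [zpow_negSucc]; exact hi (m + 1) e

theorem lift : S_LIFT := by
  intro E X _ _ p g hZ n
  have h1 : ContractibleSpace (stdSimplex ℝ (Fin (n + 1))) :=
    (convex_stdSimplex ℝ (Fin (n + 1))).contractibleSpace ⟨_, vmem n⟩
  have h2 : LocallyPathConnectedSpace (stdSimplex ℝ (Fin (n + 1))) :=
    (convex_stdSimplex ℝ (Fin (n + 1))).locallyPathConnectedSpace
  set a0 : stdSimplex ℝ (Fin (n + 1)) := ⟨_, vmem n⟩ with ha0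
  refine ⟨?_, ?_⟩
  · intro σ
    obtain ⟨e0, he0⟩ := hZ.surj (σ a0)
    obtain ⟨F, ⟨_, hF⟩, _⟩ := hZ.cov.existsUnique_continuousMap_lifts σ a0 e0 he0
    refine ⟨F, ?_⟩
    ext a
    exact congrFun hF a
  · intro τ τ' h
    obtain ⟨k, hk⟩ := hZ.orb (τ a0) (τ' a0) (congrFun (congrArg DFunLike.coe h) a0)
    refine ⟨k, ?_⟩
    have h3 : (⇑((toC (g ^ k)).comp τ)) = ⇑τ' := by
      apply hZ.cov.eq_of_comp_eq ((toC (g ^ k)).comp τ).continuous τ'.continuous ?_ a0 hk
      funext a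
      have h4 : p (τ a) = p (τ' a) := congrFun (congrArg DFunLike.coe h) a
      show p ((g ^ k) (τ a)) = p (τ' a)
      rw [zpow_inv p g hZ.inv, h4]
    exact DFunLike.coe_injective h3

end Pool.Agent.Q129.HF.LIFT
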